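import Mathlib

set_option autoImplicit false

/-! Identification of the data of a two node function (module M5 of `Zk79/LN/Stm.lean`). -/

namespace Pool.Agent.Zk20.LN

open Filter Topology Real

/-- the quotient `F / sin ^ q` -/
noncomputable def hh (F : ℝ → ℝ) (q : ℕ) (z : ℝ) : ℝ := F z / sin (π * z) ^ q

/-- its coefficient of order `q` -/
noncomputable def C (F : ℝ → ℝ) (q : ℕ) (z : ℝ) : ℝ :=
  if sin (π * z) = 0 then F z * cos (π * z) ^ q / π ^ q else 0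

/-- the even function -/
noncomputable def EE (F : ℝ → ℝ) (q : ℕ) (μ ν T : ℝ) : ℝ := hh F q (μ + ν * T) + hh F q (μ - ν * T)

/-- the hypotheses -/
structure Hyp (F : ℝ → ℝ) (q : ℕ) (μ ν : ℝ) : Prop where
  hq : 1 ≤ q
  hF : ∀ x, AnalyticAt ℝ F x
  hp : ∀ z, F (-z) = (-1) ^ (q + 1) * F z
  h0 : ∃ G : ℝ → ℝ, (∀ x, AnalyticAt ℝ G x) ∧ ∀ z, F z = z ^ (q + 1) * G z
  h1 : 0 < F 1
  h2 : 0 ≤ F 2
  h3 : F 2 ≠ F 1
  hμ : 0 < μ
  hμ1 : μ < 1
  hν : 0 < ν

lemma sin_deriv (z₀ : ℝ) : HasDerivAt (fun z => sin (π * z)) (π * cos (π * z₀)) z₀ := by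
  have h1 : HasDerivAt (fun z : ℝ => π * z) π z₀ := by
    simpa using (hasDerivAt_id z₀).const_mul π
  have h2 := h1.sin
  rwa [mul_comm] at h2

lemma cos_ne {z : ℝ} (h : sin (π * z) = 0) : cos (π * z) ≠ 0 := by
  intro h'
  have := sin_sq_add_cos_sq (π * z)
  rw [h, h'] at this
  norm_num at this

lemma slope_lim {z₀ : ℝ} (h : sin (π * z₀) = 0) :
    Tendsto (fun z => (z - z₀) / sin (π * z)) (𝓝[≠] z₀) (𝓝 (cos (π * z₀) / π)) := by
  have hc := cos_ne h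
  have hs := (hasDerivAt_iff_tendsto_slope.1 (sin_deriv z₀)).inv₀ (mul_ne_zero pi_ne_zero hc)
  have hcc : cos (π * z₀) * cos (π * z₀) = 1 := by
    have := sin_sq_add_cos_sq (π * z₀)
    rw [h] at this
    nlinarith
  have e1 : (π * cos (π * z₀))⁻¹ = cos (π * z₀) / π := by
    rw [inv_eq_one_div, div_eq_div_iff (mul_ne_zero pi_ne_zero hc) pi_ne_zero]
    linear_combination -π * hcc
  rw [e1] at hs
  refine hs.congr fun z => ?_
  simp only [slope, vsub_eq_sub, smul_eq_mul, h, sub_zero, mul_inv, inv_inv]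
  rw [div_eq_mul_inv]

lemma lim_hh {F : ℝ → ℝ} {q : ℕ} (hq : 1 ≤ q) (z₀ : ℝ) (hF : ContinuousAt F z₀) :
    Tendsto (fun z => (z - z₀) ^ q * hh F q z) (𝓝[≠] z₀) (𝓝 (C F q z₀)) := by
  unfold C hh
  split_ifs with h
  · have h1 := (hF.tendsto.mono_left (nhdsWithin_le_nhds (s := {z₀}ᶜ))).mul ((slope_lim h).pow q)
    rw [div_pow, ← mul_div_assoc] at h1
    refine h1.congr fun z => ?_
    rw [div_pow]
    ring
  · have h1 : ContinuousAt (fun z => (z - z₀) ^ q * (F z / sin (π * z) ^ q)) z₀ := by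
      refine ContinuousAt.mul (by fun_prop) (hF.div (by fun_prop) (pow_ne_zero _ h))
    have h2 := h1.tendsto.mono_left (nhdsWithin_le_nhds (s := {z₀}ᶜ))
    simpa [zero_pow (by omega : q ≠ 0)] using h2

lemma reg_hh {F : ℝ → ℝ} {q : ℕ} {μ ν : ℝ} (H : Hyp F q μ ν) (z₀ : ℝ)
    (h : sin (π * z₀) ≠ 0 ∨ z₀ = 0) : ∃ l, Tendsto (hh F q) (𝓝[≠] z₀) (𝓝 l) := by
  rcases h with h | rfl
  · have h1 : ContinuousAt (hh F q) z₀ :=
      (H.hF z₀).continuousAt.div (by fun_prop) (pow_ne_zero _ h)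
    exact ⟨_, h1.tendsto.mono_left nhdsWithin_le_nhds⟩
  · obtain ⟨G, hG, hG'⟩ := H.h0
    have h0 : sin (π * (0 : ℝ)) = 0 := by simp
    have h1 := (((continuousAt_id (x := (0:ℝ))).mul (hG 0).continuousAt).tendsto.mono_left
      (nhdsWithin_le_nhds (s := {(0:ℝ)}ᶜ))).mul ((slope_lim h0).pow q)
    refine ⟨_, h1.congr fun z => ?_⟩
    simp only [hh, hG' z, sub_zero, id_eq, Pi.mul_apply]
    rw [div_pow]
    ring

lemma lin_tendsto (μ : ℝ) {ν : ℝ} (hν : ν ≠ 0) (T₀ : ℝ) :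
    Tendsto (fun T => μ + ν * T) (𝓝[≠] T₀) (𝓝[≠] (μ + ν * T₀)) := by
  refine tendsto_nhdsWithin_iff.2 ⟨?_, ?_⟩
  · have h1 : ContinuousAt (fun T => μ + ν * T) T₀ := by fun_prop
    exact h1.tendsto.mono_left nhdsWithin_le_nhds
  · filter_upwards [self_mem_nhdsWithin] with T hT h
    apply hT
    have h2 : μ + ν * T = μ + ν * T₀ := h
    have h3 : ν * (T - T₀) = 0 := by linarith
    rcases mul_eq_zero.1 h3 with h4 | h4
    · exact absurd h4 hν
    · have : T = T₀ := by linarith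
      exact this

lemma lim_lin {F : ℝ → ℝ} {q : ℕ} (hq : 1 ≤ q) (hF : ∀ x, AnalyticAt ℝ F x) (μ : ℝ) {ν : ℝ}
    (hν : ν ≠ 0) (T₀ : ℝ) :
    Tendsto (fun T => (T - T₀) ^ q * hh F q (μ + ν * T)) (𝓝[≠] T₀)
      (𝓝 (C F q (μ + ν * T₀) / ν ^ q)) := by
  have h1 := (lim_hh hq (μ + ν * T₀) (hF _).continuousAt).comp (lin_tendsto μ hν T₀)
  have h2 := h1.div_const (ν ^ q)
  refine h2.congr fun T => ?_
  simp only [Function.comp_apply]
  have e : μ + ν * T - (μ + ν * T₀) = ν * (T - T₀) := by ring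
  rw [e, mul_pow]
  field_simp

lemma lim_EE {F : ℝ → ℝ} {q : ℕ} {μ ν : ℝ} (H : Hyp F q μ ν) (T₀ : ℝ) :
    Tendsto (fun T => (T - T₀) ^ q * EE F q μ ν T) (𝓝[≠] T₀)
      (𝓝 (C F q (μ + ν * T₀) / ν ^ q + C F q (μ - ν * T₀) / (-ν) ^ q)) := by
  have h1 := lim_lin H.hq H.hF μ H.hν.ne' T₀
  have h2 := lim_lin H.hq H.hF μ (neg_ne_zero.2 H.hν.ne') T₀
  have h3 := h1.add h2
  have e : μ - ν * T₀ = μ + -ν * T₀ := by ring
  rw [e]
  refine h3.congr fun T => ?_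
  have e' : μ - ν * T = μ + -ν * T := by ring
  rw [EE, e']
  ring

lemma reg_EE {F : ℝ → ℝ} {q : ℕ} {μ ν : ℝ} (H : Hyp F q μ ν) (T₀ : ℝ)
    (h1 : sin (π * (μ + ν * T₀)) ≠ 0 ∨ μ + ν * T₀ = 0)
    (h2 : sin (π * (μ - ν * T₀)) ≠ 0 ∨ μ - ν * T₀ = 0) :
    ∃ l, Tendsto (EE F q μ ν) (𝓝[≠] T₀) (𝓝 l) := by
  obtain ⟨l1, hl1⟩ := reg_hh H _ h1
  have e : μ - ν * T₀ = μ + -ν * T₀ := by ring
  rw [e] at h2
  obtain ⟨l2, hl2⟩ := reg_hh H _ h2
  have h3 := (hl1.comp (lin_tendsto μ H.hν.ne' T₀)).add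
    (hl2.comp (lin_tendsto μ (neg_ne_zero.2 H.hν.ne') T₀))
  refine ⟨_, h3.congr fun T => ?_⟩
  have e' : μ - ν * T = μ + -ν * T := by ring
  rw [EE, e']
  rfl

lemma sin_zero {z : ℝ} (h : sin (π * z) = 0) : ∃ n : ℤ, z = n := by
  obtain ⟨n, hn⟩ := sin_eq_zero_iff.1 h
  refine ⟨n, ?_⟩
  have h1 : π * (z - n) = 0 := by linarith
  rcases mul_eq_zero.1 h1 with h2 | h2
  · exact absurd h2 pi_ne_zero
  · linarith

lemma small_of {z : ℝ} (h1 : -1 < z) (h2 : z < 1) : sin (π * z) ≠ 0 ∨ z = 0 := by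
  by_cases h : sin (π * z) = 0
  · right
    obtain ⟨n, rfl⟩ := sin_zero h
    have h3 : -1 < n := by exact_mod_cast h1
    have h4 : n < 1 := by exact_mod_cast h2
    have h5 : n = 0 := by omega
    rw [h5]; simp
  · exact Or.inl h

lemma F_zero {F : ℝ → ℝ} {q : ℕ} {μ ν : ℝ} (H : Hyp F q μ ν) : F 0 = 0 := by
  obtain ⟨G, _, hG'⟩ := H.h0
  rw [hG' 0]; simp

lemma C_small {F : ℝ → ℝ} {q : ℕ} {μ ν : ℝ} (H : Hyp F q μ ν) {z : ℝ} (h1 : -1 < z) (h2 : z < 1) :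
    C F q z = 0 := by
  unfold C
  rcases small_of h1 h2 with h | h
  · rw [if_neg h]
  · rw [h, F_zero H]; simp

lemma C_int (F : ℝ → ℝ) (q : ℕ) (m : ℤ) : C F q m = F m * ((-1) ^ m) ^ q / π ^ q := by
  have h1 : sin (π * m) = 0 := by rw [mul_comm]; exact sin_int_mul_pi m
  have h2 : cos (π * m) = (-1) ^ m := by rw [mul_comm]; exact cos_int_mul_pi m
  unfold C
  rw [if_pos h1, h2]

lemma C_one (F : ℝ → ℝ) (q : ℕ) : C F q 1 = F 1 * (-1) ^ q / π ^ q := by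
  have := C_int F q 1
  simpa using this

lemma C_two (F : ℝ → ℝ) (q : ℕ) : C F q 2 = F 2 / π ^ q := by
  have := C_int F q 2
  simpa using this

lemma C_neg_one {F : ℝ → ℝ} {q : ℕ} {μ ν : ℝ} (H : Hyp F q μ ν) : C F q (-1) = - F 1 / π ^ q := by
  have h1 := C_int F q (-1)
  have h2 : ((-1 : ℤ) : ℝ) = -1 := by norm_num
  rw [h2, H.hp 1] at h1
  rw [h1]
  have h3 : ((-1 : ℝ) ^ (-1 : ℤ)) = -1 := by norm_num
  rw [h3]
  have h4 : (-1 : ℝ) ^ q * (-1) ^ q = 1 := by rw [← mul_pow]; norm_num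
  congr 1
  rw [pow_succ]
  linear_combination -F 1 * h4

/-- the limit at the first pole -/
lemma first {F : ℝ → ℝ} {q : ℕ} {μ ν : ℝ} (H : Hyp F q μ ν) {T₀ : ℝ} (h : μ + ν * T₀ = 1) :
    Tendsto (fun T => (T - T₀) ^ q * EE F q μ ν T) (𝓝[≠] T₀)
      (𝓝 (F 1 * (-1) ^ q / π ^ q / ν ^ q)) := by
  have h1 := lim_EE H T₀
  have h2 : μ - ν * T₀ = 2 * μ - 1 := by linarith
  rw [h, h2, C_one, C_small H (by linarith [H.hμ]) (by linarith [H.hμ1]), zero_div, add_zero] at h1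
  exact h1

lemma first_ne {F : ℝ → ℝ} {q : ℕ} {μ ν : ℝ} (H : Hyp F q μ ν) :
    F 1 * (-1) ^ q / π ^ q / ν ^ q ≠ 0 := by
  have h1 := H.h1.ne'
  have h2 := H.hν.ne'
  have h3 : (-1 : ℝ) ^ q ≠ 0 := pow_ne_zero _ (by norm_num)
  have h4 : π ^ q ≠ 0 := pow_ne_zero _ pi_ne_zero
  exact div_ne_zero (div_ne_zero (mul_ne_zero h1 h3) h4) (pow_ne_zero _ h2)

/-- the two functions agree near every point -/
def Rel (F : ℝ → ℝ) (q : ℕ) (μ ν : ℝ) (F' : ℝ → ℝ) (q' : ℕ) (μ' ν' : ℝ) : Prop :=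
  ∀ T₀ : ℝ, ∀ᶠ T in 𝓝[≠] T₀, EE F q μ ν T = EE F' q' μ' ν' T

lemma Rel.symm {F F' : ℝ → ℝ} {q q' : ℕ} {μ ν μ' ν' : ℝ} (h : Rel F q μ ν F' q' μ' ν') :
    Rel F' q' μ' ν' F q μ ν := fun T₀ => (h T₀).mono fun _ h' => h'.symm

lemma not_lt_aux {F F' : ℝ → ℝ} {q q' : ℕ} {μ ν μ' ν' : ℝ} (H : Hyp F q μ ν) (H' : Hyp F' q' μ' ν')
    (hR : Rel F q μ ν F' q' μ' ν') : ¬ (1 - μ) / ν < (1 - μ') / ν' := by
  intro hlt
  set T₀ := (1 - μ) / ν with hT
  have hν := H.hν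
  have hν' := H'.hν
  have h1 : μ + ν * T₀ = 1 := by rw [hT]; field_simp; ring
  have hT0 : 0 < T₀ := div_pos (by linarith [H.hμ1]) hν
  have h2 : ν' * T₀ < 1 - μ' := by
    have := (lt_div_iff₀ hν').1 hlt
    linarith
  have h3 : 0 < ν' * T₀ := mul_pos hν' hT0
  have hμ' := H'.hμ
  have hμ1' := H'.hμ1
  obtain ⟨l, hl⟩ := reg_EE H' T₀ (small_of (by linarith) (by linarith))
    (small_of (by linarith) (by linarith))
  have h4 : Tendsto (fun T : ℝ => (T - T₀) ^ q) (𝓝[≠] T₀) (𝓝 0) := by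
    have : ContinuousAt (fun T : ℝ => (T - T₀) ^ q) T₀ := by fun_prop
    have := this.tendsto.mono_left (nhdsWithin_le_nhds (s := {T₀}ᶜ))
    have hq := H.hq
    simpa [zero_pow (by omega : q ≠ 0)] using this
  have h5 := h4.mul hl
  rw [zero_mul] at h5
  have h6 : Tendsto (fun T => (T - T₀) ^ q * EE F q μ ν T) (𝓝[≠] T₀) (𝓝 0) := by
    refine h5.congr' ?_
    filter_upwards [hR T₀] with T hT'
    rw [hT']
  exact first_ne H (tendsto_nhds_unique (first H h1) h6)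

lemma s_eq {F F' : ℝ → ℝ} {q q' : ℕ} {μ ν μ' ν' : ℝ} (H : Hyp F q μ ν) (H' : Hyp F' q' μ' ν')
    (hR : Rel F q μ ν F' q' μ' ν') : (1 - μ) / ν = (1 - μ') / ν' :=
  le_antisymm (not_lt.1 (not_lt_aux H' H hR.symm)) (not_lt.1 (not_lt_aux H H' hR))

lemma q_le {F F' : ℝ → ℝ} {q q' : ℕ} {μ ν μ' ν' : ℝ} (H : Hyp F q μ ν) (H' : Hyp F' q' μ' ν')
    (hR : Rel F q μ ν F' q' μ' ν') : q' ≤ q := by
  by_contra hlt
  push Not at hlt
  have hs := s_eq H H' hR
  set T₀ := (1 - μ) / ν with hT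
  have hν := H.hν
  have hν' := H'.hν
  have h1 : μ + ν * T₀ = 1 := by rw [hT]; field_simp; ring
  have h1' : μ' + ν' * T₀ = 1 := by rw [hs]; field_simp; ring
  have h4 : Tendsto (fun T : ℝ => (T - T₀) ^ (q' - q)) (𝓝[≠] T₀) (𝓝 0) := by
    have : ContinuousAt (fun T : ℝ => (T - T₀) ^ (q' - q)) T₀ := by fun_prop
    have := this.tendsto.mono_left (nhdsWithin_le_nhds (s := {T₀}ᶜ))
    simpa [zero_pow (by omega : q' - q ≠ 0)] using this
  have h5 := h4.mul (first H h1)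
  rw [zero_mul] at h5
  have h6 : Tendsto (fun T => (T - T₀) ^ q' * EE F' q' μ' ν' T) (𝓝[≠] T₀) (𝓝 0) := by
    refine h5.congr' ?_
    filter_upwards [hR T₀] with T hT'
    rw [hT', ← mul_assoc, ← pow_add, Nat.sub_add_cancel hlt.le]
  exact first_ne H' (tendsto_nhds_unique (first H' h1') h6)

/-- equality of the coefficients -/
lemma coef {F F' : ℝ → ℝ} {q : ℕ} {μ ν μ' ν' : ℝ} (H : Hyp F q μ ν) (H' : Hyp F' q μ' ν')
    (hR : Rel F q μ ν F' q μ' ν') (T₀ : ℝ) :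
    C F q (μ + ν * T₀) / ν ^ q + C F q (μ - ν * T₀) / (-ν) ^ q =
      C F' q (μ' + ν' * T₀) / ν' ^ q + C F' q (μ' - ν' * T₀) / (-ν') ^ q := by
  refine tendsto_nhds_unique (lim_EE H T₀) ((lim_EE H' T₀).congr' ?_)
  filter_upwards [hR T₀] with T hT
  rw [hT]

lemma nu_le {F F' : ℝ → ℝ} {q : ℕ} {μ ν μ' ν' : ℝ} (H : Hyp F q μ ν) (H' : Hyp F' q μ' ν')
    (hR : Rel F q μ ν F' q μ' ν') : ν ≤ ν' := by
  by_contra hlt
  push Not at hlt
  have hs := s_eq H H' hR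
  have hν := H.hν
  have hν' := H'.hν
  have hμ := H.hμ
  have hμ1 := H.hμ1
  have hμ' := H'.hμ
  have hμ1' := H'.hμ1
  have hπ := pi_pos
  have hπq : 0 < π ^ q := pow_pos hπ q
  have hνq : 0 < ν ^ q := pow_pos hν q
  have hνq' : 0 < ν' ^ q := pow_pos hν' q
  -- the coefficient at the first pole
  have hA : F 1 / ν ^ q = F' 1 / ν' ^ q := by
    set T₀ := (1 - μ) / ν with hT
    have h1 : μ + ν * T₀ = 1 := by rw [hT]; field_simp; ring
    have h1' : μ' + ν' * T₀ = 1 := by rw [hs]; field_simp; ring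
    have h2 : F 1 * (-1) ^ q / π ^ q / ν ^ q = F' 1 * (-1) ^ q / π ^ q / ν' ^ q := by
      refine tendsto_nhds_unique (first H h1) ((first H' h1').congr' ?_)
      filter_upwards [hR T₀] with T hT'
      rw [hT']
    have h3 : (-1 : ℝ) ^ q ≠ 0 := pow_ne_zero _ (by norm_num)
    rw [div_div, div_div, div_eq_div_iff (by positivity) (by positivity)] at h2
    rw [div_eq_div_iff hνq.ne' hνq'.ne']
    have h4 : (-1 : ℝ) ^ q * π ^ q * (F 1 * ν' ^ q - F' 1 * ν ^ q) = 0 := by linear_combination h2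
    rcases mul_eq_zero.1 h4 with h5 | h5
    · exact absurd h5 (mul_ne_zero h3 hπq.ne')
    · linarith
  -- the second pole
  set T₂ := (1 + μ) / ν with hT2
  have e1 : μ - ν * T₂ = -1 := by rw [hT2]; field_simp; ring
  have e2 : μ + ν * T₂ = 1 + 2 * μ := by rw [hT2]; field_simp; ring
  have hν2 : ν * T₂ = 1 + μ := by rw [hT2]; field_simp
  have hs' : ν' * (1 - μ) = ν * (1 - μ') := by
    rw [div_eq_div_iff hν.ne' hν'.ne'] at hs
    linarith
  have hT2pos : 0 < T₂ := by positivity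
  -- bounds
  have b1 : ν' * T₂ < 1 + μ' := by
    have h1 : ν * (ν' * T₂) < ν * (1 + μ') := by
      have : ν * (ν' * T₂) = ν' * (1 + μ) := by rw [← hν2]; ring
      rw [this]
      nlinarith
    exact lt_of_mul_lt_mul_left h1 hν.le
  have b2 : 1 - μ' < ν' * T₂ := by
    have h1 : ν * (1 - μ') < ν * (ν' * T₂) := by
      have : ν * (ν' * T₂) = ν' * (1 + μ) := by rw [← hν2]; ring
      rw [this]
      nlinarith
    exact lt_of_mul_lt_mul_left h1 hν.le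
  have hc := coef H H' hR T₂
  rw [e1, e2, C_neg_one H, C_small H' (z := μ' - ν' * T₂) (by linarith) (by linarith), zero_div,
    add_zero] at hc
  have hsq : (-1 : ℝ) ^ q * (-1) ^ q = 1 := by rw [← mul_pow]; norm_num
  have hneg : (-ν) ^ q = (-1) ^ q * ν ^ q := neg_pow ν q
  -- the left side is not zero
  have hpar : (-1 : ℝ) ^ q = 1 ∨ (-1 : ℝ) ^ q = -1 := neg_one_pow_eq_or ℝ q
  have hne : C F q (1 + 2 * μ) / ν ^ q + -F 1 / π ^ q / (-ν) ^ q ≠ 0 := by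
    by_cases hm : μ = 1 / 2
    · have e3 : (1 + 2 * μ) = 2 := by rw [hm]; norm_num
      rw [e3, C_two, hneg]
      intro h0
      rcases hpar with h | h
      · rw [h, one_mul] at h0
        have : (F 2 - F 1) / (π ^ q * ν ^ q) = 0 := by
          rw [← h0]; field_simp; ring
        rcases div_eq_zero_iff.1 this with h5 | h5
        · exact H.h3 (by linarith)
        · exact absurd h5 (by positivity)
      · rw [h] at h0
        have : (F 2 + F 1) / (π ^ q * ν ^ q) = 0 := by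
          rw [← h0]; field_simp
        rcases div_eq_zero_iff.1 this with h5 | h5
        · linarith [H.h1, H.h2]
        · exact absurd h5 (by positivity)
    · have hC : C F q (1 + 2 * μ) = 0 := by
        unfold C
        rw [if_neg]
        intro h
        obtain ⟨n, hn⟩ := sin_zero h
        have h3 : (1 : ℝ) < n := by linarith
        have h4 : (n : ℝ) < 3 := by linarith
        have h3' : 1 < n := by exact_mod_cast h3
        have h4' : n < 3 := by exact_mod_cast h4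
        have h5 : n = 2 := by omega
        rw [h5] at hn
        apply hm
        push_cast at hn
        linarith
      rw [hC, zero_div, zero_add]
      refine div_ne_zero (div_ne_zero (neg_ne_zero.2 H.h1.ne') hπq.ne') ?_
      exact pow_ne_zero _ (neg_ne_zero.2 hν.ne')
  rw [hc] at hne
  have hC' : C F' q (μ' + ν' * T₂) ≠ 0 := by
    intro h
    rw [h, zero_div] at hne
    exact hne rfl
  have hint : ∃ n : ℤ, μ' + ν' * T₂ = n := by
    apply sin_zero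
    by_contra h
    apply hC'
    unfold C
    rw [if_neg h]
  obtain ⟨n, hn⟩ := hint
  have hn2 : n = 2 := by
    have h3 : (1 : ℝ) < n := by rw [← hn]; linarith
    have h4 : (n : ℝ) < 3 := by rw [← hn]; linarith
    have h3' : 1 < n := by exact_mod_cast h3
    have h4' : n < 3 := by exact_mod_cast h4
    omega
  rw [hn2] at hn
  push_cast at hn
  -- `1 / ν' = 2 μ / ν`
  have hmu : 2 * μ * ν' = ν := by
    have h1 : ν * (ν' * T₂) = ν' * (1 + μ) := by rw [← hν2]; ring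
    have h2 : ν' * T₂ = 2 - μ' := by linarith
    rw [h2] at h1
    linarith
  have hm : 1 + 2 * μ ≠ 2 := by
    intro h
    have : 2 * μ = 1 := by linarith
    rw [this, one_mul] at hmu
    linarith
  have hC : C F q (1 + 2 * μ) = 0 := by
    unfold C
    rw [if_neg]
    intro h
    obtain ⟨n, hn⟩ := sin_zero h
    have h3 : (1 : ℝ) < n := by linarith
    have h4 : (n : ℝ) < 3 := by linarith
    have h3' : 1 < n := by exact_mod_cast h3
    have h4' : n < 3 := by exact_mod_cast h4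
    have h5 : n = 2 := by omega
    rw [h5] at hn
    apply hm
    push_cast at hn
    linarith
  rw [hC, zero_div, zero_add, hn, C_two, hneg] at hc
  have hfin : F' 2 = -(-1) ^ q * F' 1 := by
    rcases hpar with h | h
    · rw [h, one_mul] at hc
      have h6 : F' 2 / ν' ^ q = -(F 1 / ν ^ q) := by
        field_simp at hc ⊢
        linarith
      rw [hA] at h6
      rw [h]
      field_simp at h6
      linarith
    · rw [h] at hc
      have h6 : F' 2 / ν' ^ q = F 1 / ν ^ q := by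
        field_simp at hc ⊢
        linarith
      rw [hA] at h6
      rw [h]
      field_simp at h6
      linarith
  rcases hpar with h | h
  · rw [h] at hfin
    linarith [H'.h1, H'.h2]
  · rw [h] at hfin
    apply H'.h3
    linarith

lemma mu_nu {F F' : ℝ → ℝ} {q : ℕ} {μ ν μ' ν' : ℝ} (H : Hyp F q μ ν) (H' : Hyp F' q μ' ν')
    (hR : Rel F q μ ν F' q μ' ν') : μ = μ' ∧ ν = ν' := by
  have h1 : ν = ν' := le_antisymm (nu_le H H' hR) (nu_le H' H hR.symm)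
  have h2 := s_eq H H' hR
  rw [h1, div_left_inj' H'.hν.ne'] at h2
  exact ⟨by linarith, h1⟩

lemma vals {F F' : ℝ → ℝ} {q : ℕ} {μ ν : ℝ} (H : Hyp F q μ ν) (H' : Hyp F' q μ ν)
    (hR : Rel F q μ ν F' q μ ν) (m : ℕ) : F m = F' m := by
  have hν := H.hν
  have hμ := H.hμ
  have hμ1 := H.hμ1
  have hπq : 0 < π ^ q := pow_pos pi_pos q
  have hνq : 0 < ν ^ q := pow_pos hν q
  have key : ∀ m : ℕ, C F q m / ν ^ q + C F q (2 * μ - m) / (-ν) ^ q =
      C F' q m / ν ^ q + C F' q (2 * μ - m) / (-ν) ^ q := by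
    intro m
    have h := coef H H' hR ((m - μ) / ν)
    have e1 : μ + ν * ((m - μ) / ν) = m := by field_simp; ring
    have e2 : μ - ν * ((m - μ) / ν) = 2 * μ - m := by field_simp; ring
    rw [e1, e2] at h
    exact h
  have hC : ∀ m : ℕ, C F q m - C F' q m = (F m - F' m) * ((-1) ^ (m : ℤ)) ^ q / π ^ q := by
    intro m
    have h1 := C_int F q m
    have h2 := C_int F' q m
    push_cast at h1 h2
    rw [h1, h2]; ring
  have hsgn : ∀ m : ℤ, ((-1 : ℝ) ^ m) ^ q ≠ 0 := fun m =>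
    pow_ne_zero _ (zpow_ne_zero _ (by norm_num))
  by_cases hm : μ = 1 / 2
  · have e0 : ∀ m : ℕ, 2 * μ - ((m + 1 : ℕ) : ℝ) = ((-(m : ℤ) : ℤ) : ℝ) := by
      intro m; rw [hm]; push_cast; ring
    induction m with
    | zero => simp only [Nat.cast_zero]; rw [F_zero H, F_zero H']
    | succ m ih =>
      have h1 := key (m + 1)
      rw [e0 m] at h1
      have h2 : C F q ((-(m : ℤ) : ℤ) : ℝ) = C F' q ((-(m : ℤ) : ℤ) : ℝ) := by
        rw [C_int, C_int]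
        push_cast
        rw [H.hp, H'.hp, ih]
      rw [h2] at h1
      have h3 : C F q ((m + 1 : ℕ) : ℝ) / ν ^ q = C F' q ((m + 1 : ℕ) : ℝ) / ν ^ q := by linarith
      rw [div_left_inj' hνq.ne'] at h3
      have h4 := hC (m + 1)
      rw [h3, sub_self] at h4
      have h5 := (div_eq_zero_iff.1 h4.symm).resolve_right hπq.ne'
      rcases mul_eq_zero.1 h5 with h6 | h6
      · linarith
      · exact absurd h6 (hsgn _)
  · have hz : ∀ G : ℝ → ℝ, C G q (2 * μ - m) = 0 := by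
      intro G
      unfold C
      rw [if_neg]
      intro h
      obtain ⟨n, hn⟩ := sin_zero h
      have h1 : 2 * μ = ((n + m : ℤ) : ℝ) := by push_cast; linarith
      have h3 : (0 : ℝ) < ((n + m : ℤ) : ℝ) := by rw [← h1]; linarith
      have h4 : ((n + m : ℤ) : ℝ) < 2 := by rw [← h1]; linarith
      have h3' : 0 < n + m := by exact_mod_cast h3
      have h4' : n + m < 2 := by exact_mod_cast h4
      have h5 : n + m = 1 := by omega
      rw [h5] at h1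
      apply hm
      push_cast at h1
      linarith
    have h1 := key m
    rw [hz, hz, zero_div, add_zero, add_zero, div_left_inj' hνq.ne'] at h1
    have h4 := hC m
    rw [h1, sub_self] at h4
    have h5 := (div_eq_zero_iff.1 h4.symm).resolve_right hπq.ne'
    rcases mul_eq_zero.1 h5 with h6 | h6
    · linarith
    · exact absurd h6 (hsgn _)

/-- the denominator -/
noncomputable def Dn (μ ν T : ℝ) : ℝ := sin (π * (μ + ν * T)) * sin (π * (μ - ν * T))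

/-- the numerator -/
noncomputable def Xn (F : ℝ → ℝ) (q : ℕ) (μ ν T : ℝ) : ℝ :=
  F (μ + ν * T) * sin (π * (μ - ν * T)) ^ q + F (μ - ν * T) * sin (π * (μ + ν * T)) ^ q

lemma EE_eq {F : ℝ → ℝ} {q : ℕ} {μ ν T : ℝ} (h : Dn μ ν T ≠ 0) :
    EE F q μ ν T * Dn μ ν T ^ q = Xn F q μ ν T := by
  unfold Dn at h
  have h1 : sin (π * (μ + ν * T)) ≠ 0 := fun h' => h (by rw [h', zero_mul])
  have h2 : sin (π * (μ - ν * T)) ≠ 0 := fun h' => h (by rw [h', mul_zero])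
  have h3 := pow_ne_zero q h1
  have h4 := pow_ne_zero q h2
  unfold EE hh Dn Xn
  rw [mul_pow]
  generalize sin (π * (μ + ν * T)) ^ q = a at h3 ⊢
  generalize sin (π * (μ - ν * T)) ^ q = b at h4 ⊢
  field_simp

lemma Dn_ev {μ ν : ℝ} (hν : ν ≠ 0) (T₀ : ℝ) : ∀ᶠ T in 𝓝[≠] T₀, Dn μ ν T ≠ 0 := by
  have key : ∀ z₀ : ℝ, ∀ᶠ z in 𝓝[≠] z₀, sin (π * z) ≠ 0 := by
    intro z₀
    by_cases h : sin (π * z₀) = 0
    · have := (sin_deriv z₀).eventually_ne (c := 0) (mul_ne_zero pi_ne_zero (cos_ne h))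
      exact this
    · have h1 : ContinuousAt (fun z => sin (π * z)) z₀ := by fun_prop
      exact (h1.eventually_ne h).filter_mono nhdsWithin_le_nhds
  have h1 := (lin_tendsto μ hν T₀).eventually (key _)
  have h2 := (lin_tendsto μ (neg_ne_zero.2 hν) T₀).eventually (key _)
  filter_upwards [h1, h2] with T hT1 hT2
  have e : μ - ν * T = μ + -ν * T := by ring
  unfold Dn
  rw [e]
  exact mul_ne_zero hT1 hT2

lemma Dn_zero {μ ν : ℝ} (hμ : 0 < μ) (hμ1 : μ < 1) : ∀ᶠ T in 𝓝 (0 : ℝ), Dn μ ν T ≠ 0 := by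
  have h1 : ContinuousAt (Dn μ ν) 0 := by unfold Dn; fun_prop
  refine h1.eventually_ne ?_
  have h2 : 0 < sin (π * μ) := by
    refine sin_pos_of_pos_of_lt_pi (by positivity) ?_
    have := pi_pos
    nlinarith
  unfold Dn
  simp only [mul_zero, add_zero, sub_zero]
  positivity

lemma analytic_lin {F : ℝ → ℝ} (hF : ∀ x, AnalyticAt ℝ F x) (μ ν T : ℝ) :
    AnalyticAt ℝ (fun T => F (μ + ν * T)) T := by
  have h1 : AnalyticAt ℝ (fun T : ℝ => μ + ν * T) T := by fun_prop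
  exact (hF (μ + ν * T)).comp_of_eq h1 rfl

lemma analytic_D (μ ν T : ℝ) : AnalyticAt ℝ (Dn μ ν) T := by
  have h1 : AnalyticAt ℝ (fun T : ℝ => π * (μ + ν * T)) T := by fun_prop
  have h2 : AnalyticAt ℝ (fun T : ℝ => π * (μ - ν * T)) T := by fun_prop
  exact (analyticAt_sin.comp_of_eq h1 rfl).mul (analyticAt_sin.comp_of_eq h2 rfl)

lemma analytic_X {F : ℝ → ℝ} (hF : ∀ x, AnalyticAt ℝ F x) (q : ℕ) (μ ν T : ℝ) :
    AnalyticAt ℝ (Xn F q μ ν) T := by
  have h1 : AnalyticAt ℝ (fun T : ℝ => π * (μ + ν * T)) T := by fun_prop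
  have h2 : AnalyticAt ℝ (fun T : ℝ => π * (μ - ν * T)) T := by fun_prop
  have h3 := analytic_lin hF μ ν T
  have h4 := analytic_lin hF μ (-ν) T
  have e : (fun T => F (μ + -ν * T)) = fun T => F (μ - ν * T) := by
    funext T; congr 1; ring
  rw [e] at h4
  exact (h3.mul ((analyticAt_sin.comp_of_eq h2 rfl).pow q)).add
    (h4.mul ((analyticAt_sin.comp_of_eq h1 rfl).pow q))

lemma rel_of {F F' : ℝ → ℝ} {q q' : ℕ} {μ ν μ' ν' : ℝ} (H : Hyp F q μ ν) (H' : Hyp F' q' μ' ν')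
    (hE : ∀ᶠ T in 𝓝 (0 : ℝ), EE F q μ ν T = EE F' q' μ' ν' T) : Rel F q μ ν F' q' μ' ν' := by
  have h1 : (fun T => Xn F q μ ν T * Dn μ' ν' T ^ q') = fun T => Xn F' q' μ' ν' T * Dn μ ν T ^ q := by
    refine AnalyticOnNhd.eq_of_eventuallyEq (𝕜 := ℝ) (z₀ := (0 : ℝ)) ?_ ?_ ?_
    · exact fun T _ => (analytic_X H.hF q μ ν T).mul ((analytic_D μ' ν' T).pow q')
    · exact fun T _ => (analytic_X H'.hF q' μ' ν' T).mul ((analytic_D μ ν T).pow q)
    · filter_upwards [hE, Dn_zero (ν := ν) H.hμ H.hμ1, Dn_zero (ν := ν') H'.hμ H'.hμ1]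
        with T h1 h2 h3
      rw [← EE_eq h2, ← EE_eq h3, h1]
      ring
  intro T₀
  filter_upwards [Dn_ev (μ := μ) H.hν.ne' T₀, Dn_ev (μ := μ') H'.hν.ne' T₀] with T h2 h3
  have h4 := congrFun h1 T
  rw [← EE_eq h2, ← EE_eq h3] at h4
  have h5 := pow_ne_zero q h2
  have h6 := pow_ne_zero q' h3
  have h7 : Dn μ ν T ^ q * Dn μ' ν' T ^ q' * (EE F q μ ν T - EE F' q' μ' ν' T) = 0 := by
    linear_combination h4
  rcases mul_eq_zero.1 h7 with h8 | h8
  · exact absurd h8 (mul_ne_zero h5 h6)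
  · linarith

theorem ident {F F' : ℝ → ℝ} {q q' : ℕ} (hq : 1 ≤ q) (hq' : 1 ≤ q')
    (hF : ∀ x, AnalyticAt ℝ F x) (hF' : ∀ x, AnalyticAt ℝ F' x)
    (hp : ∀ z, F (-z) = (-1) ^ (q + 1) * F z) (hp' : ∀ z, F' (-z) = (-1) ^ (q' + 1) * F' z)
    (h0 : ∃ G : ℝ → ℝ, (∀ x, AnalyticAt ℝ G x) ∧ ∀ z, F z = z ^ (q + 1) * G z)
    (h0' : ∃ G : ℝ → ℝ, (∀ x, AnalyticAt ℝ G x) ∧ ∀ z, F' z = z ^ (q' + 1) * G z)
    (h1 : 0 < F 1) (h1' : 0 < F' 1) (h2 : 0 ≤ F 2) (h2' : 0 ≤ F' 2) (h3 : F 2 ≠ F 1)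
    (h3' : F' 2 ≠ F' 1) {μ μ' ν ν' : ℝ} (hμ : 0 < μ) (hμ1 : μ < 1) (hμ' : 0 < μ') (hμ1' : μ' < 1)
    (hν : 0 < ν) (hν' : 0 < ν')
    (hE : ∀ᶠ T in 𝓝 (0 : ℝ), F (μ + ν * T) / Real.sin (Real.pi * (μ + ν * T)) ^ q +
        F (μ - ν * T) / Real.sin (Real.pi * (μ - ν * T)) ^ q =
      F' (μ' + ν' * T) / Real.sin (Real.pi * (μ' + ν' * T)) ^ q' +
        F' (μ' - ν' * T) / Real.sin (Real.pi * (μ' - ν' * T)) ^ q') :
    q = q' ∧ μ = μ' ∧ ν = ν' ∧ ∀ m : ℕ, F m = F' m := by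
  have H : Hyp F q μ ν := ⟨hq, hF, hp, h0, h1, h2, h3, hμ, hμ1, hν⟩
  have H' : Hyp F' q' μ' ν' := ⟨hq', hF', hp', h0', h1', h2', h3', hμ', hμ1', hν'⟩
  have hR := rel_of H H' hE
  have e1 : q = q' := le_antisymm (q_le H' H hR.symm) (q_le H H' hR)
  subst e1
  obtain ⟨e2, e3⟩ := mu_nu H H' hR
  subst e2 e3
  exact ⟨rfl, rfl, rfl, vals H H' hR⟩

end Pool.Agent.Zk20.LN
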