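import Pool.Agent.Zk20.LN.Id

set_option autoImplicit false
set_option linter.unusedVariables false

/-! Identification of the data, for sums of derivatives (module D2 of `Zk79/LN/Stm3.lean`). -/

namespace Pool.Agent.Zk20.LN

open Filter Topology Real Finset

/-- the numerators of the derivatives of `F / sin ^ κ` -/
noncomputable def NN (F : ℝ → ℝ) (κ : ℕ) : ℕ → ℝ → ℝ
  | 0 => F
  | i + 1 => fun z => deriv (NN F κ i) z * sin (π * z) - ((κ : ℝ) + i) * π * cos (π * z) * NN F κ i z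

/-- `κ (κ + 1) ... (κ + i - 1)` -/
noncomputable def ww (κ i : ℕ) : ℝ := ∏ t ∈ range i, ((κ : ℝ) + t)

lemma ww_pos {κ : ℕ} (hκ : 1 ≤ κ) (i : ℕ) : 0 < ww κ i := by
  refine Finset.prod_pos fun t _ => ?_
  have : (1 : ℝ) ≤ κ := by exact_mod_cast hκ
  positivity

lemma NN_analytic {F : ℝ → ℝ} (hF : ∀ x, AnalyticAt ℝ F x) (κ i : ℕ) :
    ∀ x, AnalyticAt ℝ (NN F κ i) x := by
  induction i with
  | zero => exact hF
  | succ i ih =>
    intro x
    have h1 : AnalyticAt ℝ (fun T : ℝ => π * T) x := by fun_prop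
    have h2 : AnalyticAt ℝ (fun z => sin (π * z)) x := analyticAt_sin.comp_of_eq h1 rfl
    have h3 : AnalyticAt ℝ (fun z => cos (π * z)) x := analyticAt_cos.comp_of_eq h1 rfl
    exact ((ih x).deriv.mul h2).sub (((analyticAt_const).mul h3).mul (ih x))

lemma NN_int (F : ℝ → ℝ) (κ i : ℕ) {z : ℝ} (h : sin (π * z) = 0) :
    NN F κ i z = (-1) ^ i * ww κ i * π ^ i * cos (π * z) ^ i * F z := by
  induction i with
  | zero => simp [NN, ww]
  | succ i ih =>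
    have e : NN F κ (i + 1) z = deriv (NN F κ i) z * sin (π * z) -
      ((κ : ℝ) + i) * π * cos (π * z) * NN F κ i z := rfl
    have hw : ww κ (i + 1) = ww κ i * ((κ : ℝ) + i) := prod_range_succ _ _
    rw [e, h, ih, hw]
    ring

lemma iter {F : ℝ → ℝ} (hF : ∀ x, AnalyticAt ℝ F x) {κ : ℕ} (hκ : 1 ≤ κ) (i : ℕ) :
    ∀ z : ℝ, sin (π * z) ≠ 0 →
      iteratedDeriv i (fun z => F z / sin (π * z) ^ κ) z = NN F κ i z / sin (π * z) ^ (κ + i) := by
  induction i with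
  | zero => intro z _; rw [iteratedDeriv_zero]; rfl
  | succ i ih =>
    intro z hz
    rw [iteratedDeriv_succ]
    have hev : iteratedDeriv i (fun z => F z / sin (π * z) ^ κ) =ᶠ[𝓝 z]
        fun z => NN F κ i z / sin (π * z) ^ (κ + i) := by
      have h1 : ContinuousAt (fun z => sin (π * z)) z := by fun_prop
      filter_upwards [h1.eventually_ne hz] with y hy
      exact ih y hy
    rw [hev.deriv_eq]
    obtain ⟨j, hj⟩ : ∃ j, κ + i = j + 1 := ⟨κ + i - 1, by omega⟩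
    have hN := (NN_analytic hF κ i z).differentiableAt.hasDerivAt
    have hs := (sin_deriv z).pow (j + 1)
    have hq := hN.div hs (pow_ne_zero _ hz)
    have e1 : κ + (i + 1) = j + 2 := by omega
    have e2 : ((κ : ℝ) + i) = (j : ℝ) + 1 := by exact_mod_cast hj
    rw [hj, e1]
    have hd := hq.deriv
    have e3 : (fun z => NN F κ i z / sin (π * z) ^ (j + 1)) =
        (fun z => NN F κ i z) / (fun z => sin (π * z)) ^ (j + 1) := by
      funext z; rfl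
    rw [e3]
    refine hd.trans ?_
    have e4 : NN F κ (i + 1) z = deriv (NN F κ i) z * sin (π * z) -
      ((κ : ℝ) + i) * π * cos (π * z) * NN F κ i z := rfl
    rw [e4, e2]
    simp only [Pi.pow_apply, Nat.cast_add, Nat.cast_one, Nat.add_sub_cancel]
    generalize sin (π * z) = s at hz ⊢
    generalize cos (π * z) = c
    generalize deriv (NN F κ i) z = d
    generalize NN F κ i z = n
    field_simp
    ring

lemma lim_iter {F : ℝ → ℝ} (hF : ∀ x, AnalyticAt ℝ F x) {κ : ℕ} (hκ : 1 ≤ κ) (i : ℕ) (z₀ : ℝ) :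
    Tendsto (fun z => (z - z₀) ^ (κ + i) * iteratedDeriv i (fun z => F z / sin (π * z) ^ κ) z)
      (𝓝[≠] z₀) (𝓝 ((-1) ^ i * ww κ i * C F κ z₀)) := by
  have hNc : ContinuousAt (NN F κ i) z₀ := (NN_analytic hF κ i z₀).continuousAt
  by_cases h : sin (π * z₀) = 0
  · have h1 := (hNc.tendsto.mono_left (nhdsWithin_le_nhds (s := {z₀}ᶜ))).mul
      ((slope_lim h).pow (κ + i))
    have hne : ∀ᶠ z in 𝓝[≠] z₀, sin (π * z) ≠ 0 := by
      have := (sin_deriv z₀).eventually_ne (c := 0) (mul_ne_zero pi_ne_zero (cos_ne h))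
      exact this
    have hcc : cos (π * z₀) * cos (π * z₀) = 1 := by
      have := sin_sq_add_cos_sq (π * z₀)
      rw [h] at this
      nlinarith
    have hcp : cos (π * z₀) ^ i * cos (π * z₀) ^ i = 1 := by rw [← mul_pow, hcc, one_pow]
    have e1 : NN F κ i z₀ * (cos (π * z₀) / π) ^ (κ + i) = (-1) ^ i * ww κ i * C F κ z₀ := by
      rw [NN_int F κ i h]
      unfold C
      rw [if_pos h, div_pow, pow_add, pow_add]
      have hπ : π ^ i ≠ 0 := pow_ne_zero _ pi_ne_zero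
      have hπ' : π ^ κ ≠ 0 := pow_ne_zero _ pi_ne_zero
      field_simp
      linear_combination (ww κ i * F z₀ * cos (π * z₀) ^ κ) * hcp
    rw [e1] at h1
    refine h1.congr' ?_
    filter_upwards [hne] with z hz
    rw [iter hF hκ i z hz, div_pow]
    ring
  · have hC : C F κ z₀ = 0 := by unfold C; rw [if_neg h]
    rw [hC, mul_zero]
    have h1 : ContinuousAt (fun z => (z - z₀) ^ (κ + i) * (NN F κ i z / sin (π * z) ^ (κ + i))) z₀ :=
      ContinuousAt.mul (by fun_prop) (hNc.div (by fun_prop) (pow_ne_zero _ h))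
    have h2 := h1.tendsto.mono_left (nhdsWithin_le_nhds (s := {z₀}ᶜ))
    have h3 : (z₀ - z₀) ^ (κ + i) * (NN F κ i z₀ / sin (π * z₀) ^ (κ + i)) = 0 := by
      rw [sub_self, zero_pow (by omega), zero_mul]
    rw [h3] at h2
    refine h2.congr' ?_
    have h4 : ContinuousAt (fun z => sin (π * z)) z₀ := by fun_prop
    filter_upwards [nhdsWithin_le_nhds (h4.eventually_ne h)] with z hz
    rw [iter hF hκ i z hz]

/-- the sum of derivatives -/
noncomputable def HH (F : ℝ → ℝ) (κ Q : ℕ) (a : ℕ → ℝ) (z : ℝ) : ℝ :=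
  ∑ i ∈ range (Q + 1), a i * iteratedDeriv i (fun z => F z / sin (π * z) ^ κ) z

/-- the leading factor -/
noncomputable def WW (κ Q : ℕ) (a : ℕ → ℝ) : ℝ := a Q * ((-1) ^ Q * ww κ Q)

lemma WW_ne {κ Q : ℕ} {a : ℕ → ℝ} (hκ : 1 ≤ κ) (ha : a Q ≠ 0) : WW κ Q a ≠ 0 :=
  mul_ne_zero ha (mul_ne_zero (pow_ne_zero _ (by norm_num)) (ww_pos hκ Q).ne')

lemma lim_HH {F : ℝ → ℝ} (hF : ∀ x, AnalyticAt ℝ F x) {κ : ℕ} (hκ : 1 ≤ κ) (Q : ℕ) (a : ℕ → ℝ)
    (z₀ : ℝ) : Tendsto (fun z => (z - z₀) ^ (κ + Q) * HH F κ Q a z) (𝓝[≠] z₀)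
      (𝓝 (WW κ Q a * C F κ z₀)) := by
  have key : ∀ i ∈ range (Q + 1), Tendsto (fun z => (z - z₀) ^ (κ + Q) *
      (a i * iteratedDeriv i (fun z => F z / sin (π * z) ^ κ) z)) (𝓝[≠] z₀)
        (𝓝 (if i = Q then WW κ Q a * C F κ z₀ else 0)) := by
    intro i hi
    have hiQ : i ≤ Q := by have := mem_range.1 hi; omega
    by_cases h : i = Q
    · subst h
      rw [if_pos rfl]
      have h1 := (lim_iter hF hκ i z₀).const_mul (a i)
      have e : a i * ((-1) ^ i * ww κ i * C F κ z₀) = WW κ i a * C F κ z₀ := by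
        unfold WW; ring
      rw [e] at h1
      refine h1.congr fun z => ?_
      ring
    · rw [if_neg h]
      have h1 := (lim_iter hF hκ i z₀).const_mul (a i)
      have h2 : Tendsto (fun z : ℝ => (z - z₀) ^ (Q - i)) (𝓝[≠] z₀) (𝓝 0) := by
        have h3 : ContinuousAt (fun z : ℝ => (z - z₀) ^ (Q - i)) z₀ := by fun_prop
        have h4 := h3.tendsto.mono_left (nhdsWithin_le_nhds (s := {z₀}ᶜ))
        simpa [zero_pow (by omega : Q - i ≠ 0)] using h4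
      have h3 := h2.mul h1
      rw [zero_mul] at h3
      refine h3.congr fun z => ?_
      have e : κ + Q = (Q - i) + (κ + i) := by omega
      rw [e, pow_add]
      ring
  have h1 := tendsto_finsetSum _ key
  rw [Finset.sum_ite_eq' (range (Q + 1)) Q, if_pos (mem_range.2 (by omega))] at h1
  refine h1.congr fun z => ?_
  unfold HH
  rw [mul_sum]

lemma lim_comp {H : ℝ → ℝ} {K : ℕ} (μ : ℝ) {ν : ℝ} (hν : ν ≠ 0) (T₀ c : ℝ)
    (h : Tendsto (fun z => (z - (μ + ν * T₀)) ^ K * H z) (𝓝[≠] (μ + ν * T₀)) (𝓝 c)) :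
    Tendsto (fun T => (T - T₀) ^ K * H (μ + ν * T)) (𝓝[≠] T₀) (𝓝 (c / ν ^ K)) := by
  have h1 := h.comp (lin_tendsto μ hν T₀)
  have h2 := h1.div_const (ν ^ K)
  refine h2.congr fun T => ?_
  simp only [Function.comp_apply]
  have e : μ + ν * T - (μ + ν * T₀) = ν * (T - T₀) := by ring
  rw [e, mul_pow]
  field_simp

/-- the even function -/
noncomputable def EC (F : ℝ → ℝ) (κ Q : ℕ) (a : ℕ → ℝ) (μ ν T : ℝ) : ℝ :=
  HH F κ Q a (μ + ν * T) + HH F κ Q a (μ - ν * T)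

lemma lim_EC {F : ℝ → ℝ} {κ : ℕ} {μ ν : ℝ} (H : Hyp F κ μ ν) (Q : ℕ) (a : ℕ → ℝ) (T₀ : ℝ) :
    Tendsto (fun T => (T - T₀) ^ (κ + Q) * EC F κ Q a μ ν T) (𝓝[≠] T₀)
      (𝓝 (WW κ Q a * (C F κ (μ + ν * T₀) / ν ^ (κ + Q) +
        C F κ (μ - ν * T₀) / (-ν) ^ (κ + Q)))) := by
  have e : μ - ν * T₀ = μ + -ν * T₀ := by ring
  have h1 := lim_comp μ H.hν.ne' T₀ _ (lim_HH H.hF H.hq Q a (μ + ν * T₀))
  have h2 := lim_comp μ (neg_ne_zero.2 H.hν.ne') T₀ _ (lim_HH H.hF H.hq Q a (μ + -ν * T₀))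
  have h3 := h1.add h2
  have e2 : WW κ Q a * C F κ (μ + ν * T₀) / ν ^ (κ + Q) +
      WW κ Q a * C F κ (μ + -ν * T₀) / (-ν) ^ (κ + Q) =
      WW κ Q a * (C F κ (μ + ν * T₀) / ν ^ (κ + Q) + C F κ (μ - ν * T₀) / (-ν) ^ (κ + Q)) := by
    rw [e]; ring
  rw [e2] at h3
  refine h3.congr fun T => ?_
  have e' : μ - ν * T = μ + -ν * T := by ring
  rw [EC, e']
  ring

/-- the two functions agree near every point -/
def RelC (F : ℝ → ℝ) (κ : ℕ) (a : ℕ → ℝ) (μ ν : ℝ) (F' : ℝ → ℝ) (κ' : ℕ) (a' : ℕ → ℝ)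
    (μ' ν' : ℝ) (Q : ℕ) : Prop :=
  ∀ T₀ : ℝ, ∀ᶠ T in 𝓝[≠] T₀, EC F κ Q a μ ν T = EC F' κ' Q a' μ' ν' T

section

variable {F F' : ℝ → ℝ} {κ κ' Q : ℕ} {a a' : ℕ → ℝ} {μ ν μ' ν' : ℝ}

lemma RelC.symm (h : RelC F κ a μ ν F' κ' a' μ' ν' Q) : RelC F' κ' a' μ' ν' F κ a μ ν Q :=
  fun T₀ => (h T₀).mono fun _ h' => h'.symm

lemma firstC (H : Hyp F κ μ ν) (Q : ℕ) (a : ℕ → ℝ) {T₀ : ℝ} (h : μ + ν * T₀ = 1) :
    Tendsto (fun T => (T - T₀) ^ (κ + Q) * EC F κ Q a μ ν T) (𝓝[≠] T₀)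
      (𝓝 (WW κ Q a * (F 1 * (-1) ^ κ / π ^ κ / ν ^ (κ + Q)))) := by
  have h1 := lim_EC H Q a T₀
  have h2 : μ - ν * T₀ = 2 * μ - 1 := by linarith
  rw [h, h2, C_one, C_small H (by linarith [H.hμ]) (by linarith [H.hμ1]), zero_div, add_zero] at h1
  exact h1

lemma firstC_ne (H : Hyp F κ μ ν) {a : ℕ → ℝ} (ha : a Q ≠ 0) :
    WW κ Q a * (F 1 * (-1) ^ κ / π ^ κ / ν ^ (κ + Q)) ≠ 0 := by
  have h1 := H.h1.ne'
  have h2 := H.hν.ne'
  have h3 : (-1 : ℝ) ^ κ ≠ 0 := pow_ne_zero _ (by norm_num)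
  have h4 : π ^ κ ≠ 0 := pow_ne_zero _ pi_ne_zero
  exact mul_ne_zero (WW_ne H.hq ha)
    (div_ne_zero (div_ne_zero (mul_ne_zero h1 h3) h4) (pow_ne_zero _ h2))

lemma kappa_le (H : Hyp F κ μ ν) (H' : Hyp F' κ' μ' ν') (ha' : a' Q ≠ 0)
    (hR : RelC F κ a μ ν F' κ' a' μ' ν' Q) : κ' ≤ κ := by
  by_contra hlt
  push Not at hlt
  set T₀ := (1 - μ') / ν' with hT
  have hν' := H'.hν
  have h1' : μ' + ν' * T₀ = 1 := by rw [hT]; field_simp; ring
  have h4 : Tendsto (fun T : ℝ => (T - T₀) ^ (κ' - κ)) (𝓝[≠] T₀) (𝓝 0) := by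
    have : ContinuousAt (fun T : ℝ => (T - T₀) ^ (κ' - κ)) T₀ := by fun_prop
    have := this.tendsto.mono_left (nhdsWithin_le_nhds (s := {T₀}ᶜ))
    simpa [zero_pow (by omega : κ' - κ ≠ 0)] using this
  have h5 := h4.mul (lim_EC H Q a T₀)
  rw [zero_mul] at h5
  have h6 : Tendsto (fun T => (T - T₀) ^ (κ' + Q) * EC F' κ' Q a' μ' ν' T) (𝓝[≠] T₀) (𝓝 0) := by
    refine h5.congr' ?_
    filter_upwards [hR T₀] with T hT'
    have e : κ' + Q = (κ' - κ) + (κ + Q) := by omega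
    rw [hT', ← mul_assoc, ← pow_add, ← e]
  exact firstC_ne H' ha' (tendsto_nhds_unique (firstC H' Q a' h1') h6)

lemma coefC (H : Hyp F κ μ ν) (H' : Hyp F' κ μ' ν') (hR : RelC F κ a μ ν F' κ a' μ' ν' Q) (T₀ : ℝ) :
    WW κ Q a * (C F κ (μ + ν * T₀) / ν ^ (κ + Q) + C F κ (μ - ν * T₀) / (-ν) ^ (κ + Q)) =
      WW κ Q a' * (C F' κ (μ' + ν' * T₀) / ν' ^ (κ + Q) +
        C F' κ (μ' - ν' * T₀) / (-ν') ^ (κ + Q)) := by
  refine tendsto_nhds_unique (lim_EC H Q a T₀) ((lim_EC H' Q a' T₀).congr' ?_)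
  filter_upwards [hR T₀] with T hT
  rw [hT]

lemma not_lt_C (H : Hyp F κ μ ν) (H' : Hyp F' κ μ' ν') (ha : a Q ≠ 0)
    (hR : RelC F κ a μ ν F' κ a' μ' ν' Q) : ¬ (1 - μ) / ν < (1 - μ') / ν' := by
  intro hlt
  set T₀ := (1 - μ) / ν with hT
  have hν := H.hν
  have hν' := H'.hν
  have h1 : μ + ν * T₀ = 1 := by rw [hT]; field_simp; ring
  have hT0 : 0 < T₀ := div_pos (by linarith [H.hμ1]) hν
  have h2 : ν' * T₀ < 1 - μ' := by
    have := (lt_div_iff₀ hν').1 hlt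
    linarith
  have h3 : 0 < ν' * T₀ := mul_pos hν' hT0
  have hμ' := H'.hμ
  have hμ1' := H'.hμ1
  have h4 := coefC H H' hR T₀
  rw [C_small H' (z := μ' + ν' * T₀) (by linarith) (by linarith),
    C_small H' (z := μ' - ν' * T₀) (by linarith) (by linarith), zero_div, zero_div, add_zero,
    mul_zero] at h4
  have h5 : μ - ν * T₀ = 2 * μ - 1 := by linarith
  rw [h1, h5, C_one, C_small H (by linarith [H.hμ]) (by linarith [H.hμ1]), zero_div, add_zero] at h4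
  exact firstC_ne H ha h4

lemma s_eqC (H : Hyp F κ μ ν) (H' : Hyp F' κ μ' ν') (ha : a Q ≠ 0) (ha' : a' Q ≠ 0)
    (hR : RelC F κ a μ ν F' κ a' μ' ν' Q) : (1 - μ) / ν = (1 - μ') / ν' :=
  le_antisymm (not_lt.1 (not_lt_C H' H ha' hR.symm)) (not_lt.1 (not_lt_C H H' ha hR))

lemma nu_leC (H : Hyp F κ μ ν) (H' : Hyp F' κ μ' ν') (ha : a Q ≠ 0) (ha' : a' Q ≠ 0)
    (hR : RelC F κ a μ ν F' κ a' μ' ν' Q) : ν ≤ ν' := by
  by_contra hlt
  push Not at hlt
  have hs := s_eqC H H' ha ha' hR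
  have hν := H.hν
  have hν' := H'.hν
  have hμ := H.hμ
  have hμ1 := H.hμ1
  have hμ' := H'.hμ
  have hμ1' := H'.hμ1
  have hπq : 0 < π ^ κ := pow_pos pi_pos κ
  have hνq : 0 < ν ^ (κ + Q) := pow_pos hν _
  have hνq' : 0 < ν' ^ (κ + Q) := pow_pos hν' _
  have hW := WW_ne H.hq ha
  have hW' := WW_ne H'.hq ha'
  -- the coefficient at the first pole
  have hA : WW κ Q a * F 1 / ν ^ (κ + Q) = WW κ Q a' * F' 1 / ν' ^ (κ + Q) := by
    set T₀ := (1 - μ) / ν with hT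
    have h1 : μ + ν * T₀ = 1 := by rw [hT]; field_simp; ring
    have h1' : μ' + ν' * T₀ = 1 := by rw [hs]; field_simp; ring
    have h2 : WW κ Q a * (F 1 * (-1) ^ κ / π ^ κ / ν ^ (κ + Q)) =
        WW κ Q a' * (F' 1 * (-1) ^ κ / π ^ κ / ν' ^ (κ + Q)) := by
      refine tendsto_nhds_unique (firstC H Q a h1) ((firstC H' Q a' h1').congr' ?_)
      filter_upwards [hR T₀] with T hT'
      rw [hT']
    have h3 : (-1 : ℝ) ^ κ ≠ 0 := pow_ne_zero _ (by norm_num)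
    have h4 : ((-1 : ℝ) ^ κ / π ^ κ) * (WW κ Q a * F 1 / ν ^ (κ + Q) -
        WW κ Q a' * F' 1 / ν' ^ (κ + Q)) = 0 := by
      linear_combination h2
    rcases mul_eq_zero.1 h4 with h5 | h5
    · exact absurd h5 (div_ne_zero h3 hπq.ne')
    · linarith
  -- the second pole
  set T₂ := (1 + μ) / ν with hT2
  have e1 : μ - ν * T₂ = -1 := by rw [hT2]; field_simp; ring
  have e2 : μ + ν * T₂ = 1 + 2 * μ := by rw [hT2]; field_simp; ring
  have hν2 : ν * T₂ = 1 + μ := by rw [hT2]; field_simp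
  have hs' : ν' * (1 - μ) = ν * (1 - μ') := by
    rw [div_eq_div_iff hν.ne' hν'.ne'] at hs
    linarith
  have b1 : ν' * T₂ < 1 + μ' := by
    have h1 : ν * (ν' * T₂) < ν * (1 + μ') := by
      have : ν * (ν' * T₂) = ν' * (1 + μ) := by rw [← hν2]; ring
      rw [this]
      nlinarith
    exact lt_of_mul_lt_mul_left h1 hν.le
  have b2 : 1 - μ' < ν' * T₂ := by
    have h1 : ν * (1 - μ') < ν * (ν' * T₂) := by
      have : ν * (ν' * T₂) = ν' * (1 + μ) := by rw [← hν2]; ring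
      rw [this]
      nlinarith
    exact lt_of_mul_lt_mul_left h1 hν.le
  have hc := coefC H H' hR T₂
  rw [e1, e2, C_neg_one H, C_small H' (z := μ' - ν' * T₂) (by linarith) (by linarith), zero_div,
    add_zero] at hc
  have hneg : (-ν) ^ (κ + Q) = (-1) ^ (κ + Q) * ν ^ (κ + Q) := neg_pow ν _
  have hpar : (-1 : ℝ) ^ (κ + Q) = 1 ∨ (-1 : ℝ) ^ (κ + Q) = -1 := neg_one_pow_eq_or ℝ _
  have hCne : 1 + 2 * μ ≠ 2 → C F κ (1 + 2 * μ) = 0 := by
    intro hm
    unfold C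
    rw [if_neg]
    intro h
    obtain ⟨n, hn⟩ := sin_zero h
    have h3 : (1 : ℝ) < n := by linarith
    have h4 : (n : ℝ) < 3 := by linarith
    have h3' : 1 < n := by exact_mod_cast h3
    have h4' : n < 3 := by exact_mod_cast h4
    have h5 : n = 2 := by omega
    rw [h5] at hn
    apply hm
    push_cast at hn
    linarith
  have hne : C F κ (1 + 2 * μ) / ν ^ (κ + Q) + -F 1 / π ^ κ / (-ν) ^ (κ + Q) ≠ 0 := by
    by_cases hm : 1 + 2 * μ = 2
    · rw [hm, C_two, hneg]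
      intro h0
      rcases hpar with h | h
      · rw [h, one_mul] at h0
        have : (F 2 - F 1) / (π ^ κ * ν ^ (κ + Q)) = 0 := by
          rw [← h0]; field_simp; ring
        rcases div_eq_zero_iff.1 this with h5 | h5
        · exact H.h3 (by linarith)
        · exact absurd h5 (by positivity)
      · rw [h] at h0
        have : (F 2 + F 1) / (π ^ κ * ν ^ (κ + Q)) = 0 := by
          rw [← h0]; field_simp
        rcases div_eq_zero_iff.1 this with h5 | h5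
        · linarith [H.h1, H.h2]
        · exact absurd h5 (by positivity)
    · rw [hCne hm, zero_div, zero_add]
      refine div_ne_zero (div_ne_zero (neg_ne_zero.2 H.h1.ne') hπq.ne') ?_
      exact pow_ne_zero _ (neg_ne_zero.2 hν.ne')
  have hne2 := mul_ne_zero hW hne
  rw [hc] at hne2
  have hC' : C F' κ (μ' + ν' * T₂) ≠ 0 := by
    intro h
    rw [h, zero_div, mul_zero] at hne2
    exact hne2 rfl
  have hint : ∃ n : ℤ, μ' + ν' * T₂ = n := by
    apply sin_zero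
    by_contra h
    apply hC'
    unfold C
    rw [if_neg h]
  obtain ⟨n, hn⟩ := hint
  have hn2 : n = 2 := by
    have h3 : (1 : ℝ) < n := by rw [← hn]; linarith
    have h4 : (n : ℝ) < 3 := by rw [← hn]; linarith
    have h3' : 1 < n := by exact_mod_cast h3
    have h4' : n < 3 := by exact_mod_cast h4
    omega
  rw [hn2] at hn
  push_cast at hn
  have hmu : 2 * μ * ν' = ν := by
    have h1 : ν * (ν' * T₂) = ν' * (1 + μ) := by rw [← hν2]; ring
    have h2 : ν' * T₂ = 2 - μ' := by linarith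
    rw [h2] at h1
    linarith
  have hm : 1 + 2 * μ ≠ 2 := by
    intro h
    have : 2 * μ = 1 := by linarith
    rw [this, one_mul] at hmu
    linarith
  rw [hCne hm, zero_div, zero_add, hn, C_two, hneg] at hc
  have hfin : F' 2 = -(-1) ^ (κ + Q) * F' 1 := by
    have h7 : WW κ Q a' * (F' 2 - (-(-1) ^ (κ + Q) * F' 1)) / ν' ^ (κ + Q) = 0 := by
      rcases hpar with h | h
      · rw [h, one_mul] at hc
        have h6 : WW κ Q a' * F' 2 / ν' ^ (κ + Q) = -(WW κ Q a * F 1 / ν ^ (κ + Q)) := by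
          have h8 : π ^ κ * (WW κ Q a' * (F' 2 / π ^ κ / ν' ^ (κ + Q))) =
              π ^ κ * (WW κ Q a * (-F 1 / π ^ κ / ν ^ (κ + Q))) := by rw [hc]
          have h9 : π ^ κ * (WW κ Q a' * (F' 2 / π ^ κ / ν' ^ (κ + Q))) =
              WW κ Q a' * F' 2 / ν' ^ (κ + Q) := by field_simp
          have h10 : π ^ κ * (WW κ Q a * (-F 1 / π ^ κ / ν ^ (κ + Q))) =
              -(WW κ Q a * F 1 / ν ^ (κ + Q)) := by field_simp
          rw [h9, h10] at h8
          exact h8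
        rw [hA] at h6
        rw [h]
        linear_combination h6
      · rw [h] at hc
        have h6 : WW κ Q a' * F' 2 / ν' ^ (κ + Q) = WW κ Q a * F 1 / ν ^ (κ + Q) := by
          have h8 : π ^ κ * (WW κ Q a' * (F' 2 / π ^ κ / ν' ^ (κ + Q))) =
              π ^ κ * (WW κ Q a * (-F 1 / π ^ κ / (-1 * ν ^ (κ + Q)))) := by rw [hc]
          have h9 : π ^ κ * (WW κ Q a' * (F' 2 / π ^ κ / ν' ^ (κ + Q))) =
              WW κ Q a' * F' 2 / ν' ^ (κ + Q) := by field_simp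
          have h10 : π ^ κ * (WW κ Q a * (-F 1 / π ^ κ / (-1 * ν ^ (κ + Q)))) =
              WW κ Q a * F 1 / ν ^ (κ + Q) := by field_simp
          rw [h9, h10] at h8
          exact h8
        rw [hA] at h6
        rw [h]
        linear_combination h6
    rcases div_eq_zero_iff.1 h7 with h8 | h8
    · rcases mul_eq_zero.1 h8 with h9 | h9
      · exact absurd h9 hW'
      · linarith
    · exact absurd h8 hνq'.ne'
  rcases hpar with h | h
  · rw [h] at hfin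
    linarith [H'.h1, H'.h2]
  · rw [h] at hfin
    apply H'.h3
    linarith

lemma mu_nuC (H : Hyp F κ μ ν) (H' : Hyp F' κ μ' ν') (ha : a Q ≠ 0) (ha' : a' Q ≠ 0)
    (hR : RelC F κ a μ ν F' κ a' μ' ν' Q) : μ = μ' ∧ ν = ν' := by
  have h1 : ν = ν' := le_antisymm (nu_leC H H' ha ha' hR) (nu_leC H' H ha' ha hR.symm)
  have h2 := s_eqC H H' ha ha' hR
  rw [h1, div_left_inj' H'.hν.ne'] at h2
  exact ⟨by linarith, h1⟩

lemma valsC (H : Hyp F κ μ ν) (H' : Hyp F' κ μ ν) (hR : RelC F κ a μ ν F' κ a' μ ν Q) (m : ℕ) :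
    WW κ Q a * F m = WW κ Q a' * F' m := by
  have hν := H.hν
  have hμ := H.hμ
  have hμ1 := H.hμ1
  have hπq : 0 < π ^ κ := pow_pos pi_pos κ
  have hνq : 0 < ν ^ (κ + Q) := pow_pos hν _
  have key : ∀ m : ℕ, WW κ Q a * (C F κ m / ν ^ (κ + Q) + C F κ (2 * μ - m) / (-ν) ^ (κ + Q)) =
      WW κ Q a' * (C F' κ m / ν ^ (κ + Q) + C F' κ (2 * μ - m) / (-ν) ^ (κ + Q)) := by
    intro m
    have h := coefC H H' hR ((m - μ) / ν)
    have e1 : μ + ν * ((m - μ) / ν) = m := by field_simp; ring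
    have e2 : μ - ν * ((m - μ) / ν) = 2 * μ - m := by field_simp; ring
    rw [e1, e2] at h
    exact h
  have hC : ∀ m : ℕ, WW κ Q a * C F κ m - WW κ Q a' * C F' κ m =
      (WW κ Q a * F m - WW κ Q a' * F' m) * ((-1) ^ (m : ℤ)) ^ κ / π ^ κ := by
    intro m
    have h1 := C_int F κ m
    have h2 := C_int F' κ m
    push_cast at h1 h2
    rw [h1, h2]; ring
  have hsgn : ∀ m : ℤ, ((-1 : ℝ) ^ m) ^ κ ≠ 0 := fun m =>
    pow_ne_zero _ (zpow_ne_zero _ (by norm_num))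
  have fin : ∀ m : ℕ, WW κ Q a * C F κ m = WW κ Q a' * C F' κ m →
      WW κ Q a * F m = WW κ Q a' * F' m := by
    intro m h3
    have h4 := hC m
    rw [h3, sub_self] at h4
    have h5 := (div_eq_zero_iff.1 h4.symm).resolve_right hπq.ne'
    rcases mul_eq_zero.1 h5 with h6 | h6
    · linarith
    · exact absurd h6 (hsgn _)
  by_cases hm : μ = 1 / 2
  · have e0 : ∀ m : ℕ, 2 * μ - ((m + 1 : ℕ) : ℝ) = ((-(m : ℤ) : ℤ) : ℝ) := by
      intro m; rw [hm]; push_cast; ring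
    induction m with
    | zero => simp only [Nat.cast_zero]; rw [F_zero H, F_zero H', mul_zero, mul_zero]
    | succ m ih =>
      have h1 := key (m + 1)
      rw [e0 m] at h1
      have h2 : WW κ Q a * C F κ ((-(m : ℤ) : ℤ) : ℝ) =
          WW κ Q a' * C F' κ ((-(m : ℤ) : ℤ) : ℝ) := by
        rw [C_int, C_int]
        push_cast
        rw [H.hp, H'.hp]
        linear_combination ((-1) ^ (κ + 1) * ((-1) ^ (-(m : ℤ))) ^ κ / π ^ κ) * ih
      apply fin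
      have h3 : (WW κ Q a * C F κ ((m + 1 : ℕ) : ℝ) - WW κ Q a' * C F' κ ((m + 1 : ℕ) : ℝ)) /
          ν ^ (κ + Q) = 0 := by
        linear_combination h1 - h2 / (-ν) ^ (κ + Q)
      have h4 := (div_eq_zero_iff.1 h3).resolve_right hνq.ne'
      linarith
  · have hz : ∀ G : ℝ → ℝ, C G κ (2 * μ - m) = 0 := by
      intro G
      unfold C
      rw [if_neg]
      intro h
      obtain ⟨n, hn⟩ := sin_zero h
      have h1 : 2 * μ = ((n + m : ℤ) : ℝ) := by push_cast; linarith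
      have h3 : (0 : ℝ) < ((n + m : ℤ) : ℝ) := by rw [← h1]; linarith
      have h4 : ((n + m : ℤ) : ℝ) < 2 := by rw [← h1]; linarith
      have h3' : 0 < n + m := by exact_mod_cast h3
      have h4' : n + m < 2 := by exact_mod_cast h4
      have h5 : n + m = 1 := by omega
      rw [h5] at h1
      apply hm
      push_cast at h1
      linarith
    have h1 := key m
    rw [hz, hz, zero_div, add_zero, add_zero] at h1
    apply fin
    have h3 : (WW κ Q a * C F κ m - WW κ Q a' * C F' κ m) / ν ^ (κ + Q) = 0 := by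
      linear_combination h1
    have h4 := (div_eq_zero_iff.1 h3).resolve_right hνq.ne'
    linarith

end

/-- D2 -/
theorem identC {F F' : ℝ → ℝ} {κ κ' Q : ℕ} {a a' : ℕ → ℝ} (ha : a Q ≠ 0) (ha' : a' Q ≠ 0)
    (hκ : 1 ≤ κ) (hκ' : 1 ≤ κ')
    (hF : ∀ x, AnalyticAt ℝ F x) (hF' : ∀ x, AnalyticAt ℝ F' x)
    (hp : ∀ z, F (-z) = (-1) ^ (κ + 1) * F z) (hp' : ∀ z, F' (-z) = (-1) ^ (κ' + 1) * F' z)
    (h0 : ∃ G : ℝ → ℝ, (∀ x, AnalyticAt ℝ G x) ∧ ∀ z, F z = z ^ (κ + 1) * G z)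
    (h0' : ∃ G : ℝ → ℝ, (∀ x, AnalyticAt ℝ G x) ∧ ∀ z, F' z = z ^ (κ' + 1) * G z)
    (h1 : 0 < F 1) (h1' : 0 < F' 1) (h2 : 0 ≤ F 2) (h2' : 0 ≤ F' 2) (h3 : F 2 ≠ F 1)
    (h3' : F' 2 ≠ F' 1) {μ μ' ν ν' : ℝ} (hμ : 0 < μ) (hμ1 : μ < 1) (hμ' : 0 < μ') (hμ1' : μ' < 1)
    (hν : 0 < ν) (hν' : 0 < ν')
    (hE : ∀ T : ℝ, Real.sin (Real.pi * (μ + ν * T)) ≠ 0 → Real.sin (Real.pi * (μ - ν * T)) ≠ 0 →
      Real.sin (Real.pi * (μ' + ν' * T)) ≠ 0 → Real.sin (Real.pi * (μ' - ν' * T)) ≠ 0 →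
      (∑ i ∈ range (Q + 1), a i *
        (iteratedDeriv i (fun z => F z / Real.sin (Real.pi * z) ^ κ) (μ + ν * T) +
        iteratedDeriv i (fun z => F z / Real.sin (Real.pi * z) ^ κ) (μ - ν * T))) =
      ∑ i ∈ range (Q + 1), a' i *
        (iteratedDeriv i (fun z => F' z / Real.sin (Real.pi * z) ^ κ') (μ' + ν' * T) +
        iteratedDeriv i (fun z => F' z / Real.sin (Real.pi * z) ^ κ') (μ' - ν' * T))) :
    κ = κ' ∧ μ = μ' ∧ ν = ν' ∧ ∃ c : ℝ, c ≠ 0 ∧ ∀ m : ℕ, F m = c * F' m := by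
  have H : Hyp F κ μ ν := ⟨hκ, hF, hp, h0, h1, h2, h3, hμ, hμ1, hν⟩
  have H' : Hyp F' κ' μ' ν' := ⟨hκ', hF', hp', h0', h1', h2', h3', hμ', hμ1', hν'⟩
  have hR : RelC F κ a μ ν F' κ' a' μ' ν' Q := by
    intro T₀
    filter_upwards [Dn_ev (μ := μ) hν.ne' T₀, Dn_ev (μ := μ') hν'.ne' T₀] with T g1 g2
    unfold Dn at g1 g2
    have h := hE T (left_ne_zero_of_mul g1) (right_ne_zero_of_mul g1) (left_ne_zero_of_mul g2)
      (right_ne_zero_of_mul g2)
    simp only [mul_add, sum_add_distrib] at h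
    exact h
  have e1 : κ = κ' := le_antisymm (kappa_le H' H ha hR.symm) (kappa_le H H' ha' hR)
  subst e1
  obtain ⟨e2, e3⟩ := mu_nuC H H' ha ha' hR
  subst e2 e3
  have hW := WW_ne hκ ha
  have hW' := WW_ne hκ ha'
  refine ⟨rfl, rfl, rfl, WW κ Q a' / WW κ Q a, div_ne_zero hW' hW, fun m => ?_⟩
  have h := valsC H H' hR m
  field_simp
  linarith

end Pool.Agent.Zk20.LN
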